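import Pool.Agent.H3.PK.Targets

set_option autoImplicit false

namespace Pool.Agent.H17.PK

open Pool.Agent.H3.PK MeasureTheory Metric Set Filter
open scoped Topology

/-- the segment -/
def sg : Set ℂ := (fun t : ℝ => (t : ℂ)) '' Icc 0 1

theorem sg_compact : IsCompact sg := isCompact_Icc.image Complex.continuous_ofReal

theorem sg_nonempty : sg.Nonempty := ⟨_, 0, ⟨le_rfl, zero_le_one⟩, rfl⟩

theorem seg_iff (w : ℂ) (δ : ℝ) : (∃ t : ℝ, 0 ≤ t ∧ t ≤ 1 ∧ ‖w - t‖ ≤ δ) ↔ infDist w sg ≤ δ := by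
  constructor
  · rintro ⟨t, h0, h1, h⟩
    have hm : (t : ℂ) ∈ sg := mem_image_of_mem _ (show t ∈ Icc (0 : ℝ) 1 from ⟨h0, h1⟩)
    have h2 := infDist_le_dist_of_mem (x := w) hm
    rw [dist_eq_norm] at h2
    exact h2.trans h
  · intro h
    obtain ⟨y, ⟨t, ⟨h0, h1⟩, rfl⟩, hy⟩ := sg_compact.exists_infDist_eq_dist sg_nonempty w
    refine ⟨t, h0, h1, ?_⟩
    rw [hy, dist_eq_norm] at h
    exact h

theorem chn : T_CHN := by
  intro n σ hσ i₀ hnull
  have hchan : ∀ δ : ℝ, chan (n := n) i₀ δ = {z : S n | infDist ((z : E n) i₀) sg ≤ δ} := by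
    intro δ
    ext z
    exact seg_iff _ _
  have hcont : Continuous fun z : S n => infDist ((z : E n) i₀) sg := by
    refine (continuous_infDist_pt sg).comp ?_
    have h1 : Continuous fun z : E n => z i₀ := by fun_prop
    exact h1.comp continuous_subtype_val
  have hcl : ∀ δ : ℝ, IsClosed (chan (n := n) i₀ δ) := by
    intro δ
    rw [hchan]
    exact isClosed_le hcont continuous_const
  refine ⟨hcl, fun ε hε => ?_⟩
  have hmono : ∀ δ δ' : ℝ, δ ≤ δ' → chan (n := n) i₀ δ ⊆ chan i₀ δ' := by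
    intro δ δ' h
    rw [hchan, hchan]
    intro z hz
    exact le_trans (show infDist ((z : E n) i₀) sg ≤ δ from hz) h
  have hanti : Antitone fun k : ℕ => chan (n := n) i₀ (1 / ((k : ℝ) + 1)) := by
    intro k k' h
    apply hmono
    apply one_div_le_one_div_of_le
    · positivity
    · have : (k : ℝ) ≤ k' := by exact_mod_cast h
      linarith
  have ht := tendsto_measure_iInter_atTop (μ := σ)
    (s := fun k : ℕ => chan (n := n) i₀ (1 / ((k : ℝ) + 1)))
    (fun k => (hcl _).measurableSet.nullMeasurableSet) hanti ⟨0, measure_ne_top _ _⟩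
  have hsub : (⋂ k : ℕ, chan (n := n) i₀ (1 / ((k : ℝ) + 1))) ⊆ {z | ((z : E n) i₀).im = 0} := by
    intro z hz
    rw [mem_iInter] at hz
    have h0 : infDist ((z : E n) i₀) sg ≤ 0 := by
      refine le_of_forall_pos_le_add fun η hη => ?_
      obtain ⟨k, hk⟩ := exists_nat_one_div_lt hη
      have := hz k
      rw [hchan] at this
      have h1 : infDist ((z : E n) i₀) sg ≤ 1 / ((k : ℝ) + 1) := this
      linarith
    obtain ⟨t, -, -, h3⟩ := (seg_iff _ _).2 h0
    have h4 : (z : E n) i₀ - t = 0 := norm_le_zero_iff.1 h3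
    have h5 : (z : E n) i₀ = t := sub_eq_zero.1 h4
    show ((z : E n) i₀).im = 0
    rw [h5]
    exact Complex.ofReal_im t
  have hz : σ (⋂ k : ℕ, chan (n := n) i₀ (1 / ((k : ℝ) + 1))) = 0 := measure_mono_null hsub hnull
  rw [hz] at ht
  have hev := (ENNReal.tendsto_nhds_zero.1 ht) (ENNReal.ofReal ε) (by simpa using hε)
  obtain ⟨k, hk⟩ := hev.exists
  refine ⟨1 / ((k : ℝ) + 1), by positivity, fun δ hδ => ?_⟩
  have h6 : σ (chan i₀ δ) ≤ ENNReal.ofReal ε := (measure_mono (hmono _ _ hδ)).trans hk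
  exact ENNReal.toReal_le_of_le_ofReal hε.le h6

end Pool.Agent.H17.PK
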