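import Pool.Agent.H3.PK.Targets

set_option autoImplicit false

namespace Pool.Agent.H17.PK

open Pool.Agent.H3.PK MeasureTheory Metric Set
open scoped ComplexConjugate

theorem mv_hom {n N : ℕ} (hN : N ≠ 0) {σ : Measure (S n)} (h : Inv σ) {p : MvPolynomial (Fin n) ℂ}
    (hp : p.IsHomogeneous N) : ∫ z, ev p z ∂σ = 0 := by
  have hc : ‖Complex.exp (((Real.pi / N : ℝ) : ℂ) * Complex.I)‖ = 1 :=
    Complex.norm_exp_ofReal_mul_I _
  have hcN : Complex.exp (((Real.pi / N : ℝ) : ℂ) * Complex.I) ^ N = -1 := by
    rw [← Complex.exp_nat_mul, ← Complex.exp_pi_mul_I]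
    congr 1
    have : (N : ℂ) ≠ 0 := by exact_mod_cast hN
    push_cast
    field_simp
  have h1 := h.integral (rot n _ hc) (fun z : S n => ev p z)
  have h2 : ∀ z : S n, ev p (act (rot n _ hc) z : S n) = - ev p z := by
    intro z
    have h3 : ((act (rot n _ hc) z : S n) : E n) =
        Complex.exp (((Real.pi / N : ℝ) : ℂ) * Complex.I) • (z : E n) := rfl
    rw [h3, ev_smul hp, hcN]
    ring
  simp only [h2] at h1
  rw [integral_neg] at h1
  have h4 : (2 : ℂ) * ∫ z : S n, ev p z ∂σ = 0 := by linear_combination (-1 : ℂ) * h1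
  exact (mul_eq_zero.1 h4).resolve_left two_ne_zero

theorem mv : T_MV := by
  intro n σ h F
  have := h.prob
  induction F using MvPolynomial.induction_on' with
  | monomial m a =>
    rcases eq_or_ne m 0 with hm | hm
    · subst hm
      have h1 : MvPolynomial.monomial (0 : Fin n →₀ ℕ) a = MvPolynomial.C a := rfl
      rw [h1]
      simp only [ev_C, MvPolynomial.constantCoeff_C]
      simp
    · rw [mv_hom (N := m.degree) ?_ h (MvPolynomial.isHomogeneous_monomial a rfl),
        MvPolynomial.constantCoeff_monomial, if_neg hm]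
      intro h0
      exact hm ((Finsupp.degree_eq_zero_iff m).1 h0)
  | add p q hp hq =>
    simp only [ev_add]
    rw [integral_add (integrable_cont σ (continuous_evS p)) (integrable_cont σ (continuous_evS q)),
      hp, hq, map_add]

end Pool.Agent.H17.PK
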