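import Pool.Agent.H3.PK.Targets

set_option autoImplicit false

namespace Pool.Agent.H17.PK

open Pool.Agent.H3.PK Metric Set

/-- the compact set -/
def QS (δ : ℝ) : Set ℂ :=
  closedBall 0 1 ∩ ((⋂ t ∈ Icc (0 : ℝ) 1, {w : ℂ | δ ≤ ‖w - t‖}) ∪ {0})

theorem QS_compact (δ : ℝ) : IsCompact (QS δ) := by
  refine (isCompact_closedBall 0 1).inter_right ?_
  refine IsClosed.union ?_ isClosed_singleton
  refine isClosed_biInter fun t _ => ?_
  exact isClosed_le continuous_const (by fun_prop)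

instance (δ : ℝ) : CompactSpace (QS δ) := isCompact_iff_compactSpace.1 (QS_compact δ)

theorem geo {Q : Set ℂ} [CompactSpace Q] {y : C(Q, ℂ)}
    (hy : y ∈ (polynomialFunctions Q).topologicalClosure) (h1 : ‖y‖ < 1) :
    ∃ g ∈ (polynomialFunctions Q).topologicalClosure, ∀ w, (1 - y w) * g w = 1 := by
  have hs : HasSum (fun n : ℕ => y ^ n) (∑' n : ℕ, y ^ n) :=
    (summable_geometric_of_norm_lt_one h1).hasSum
  refine ⟨∑' n : ℕ, y ^ n, ?_, fun w => ?_⟩
  · have hcl : IsClosed ((polynomialFunctions Q).topologicalClosure : Set C(Q, ℂ)) :=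
      Subalgebra.isClosed_topologicalClosure _
    refine hcl.mem_of_tendsto hs (Filter.Eventually.of_forall fun s => ?_)
    exact Subalgebra.sum_mem _ fun n _ => Subalgebra.pow_mem _ hy n
  · have h2 := mul_neg_geom_series y h1
    exact congrArg (fun f : C(Q, ℂ) => f w) h2

/-- the function `1 / (a - w)` is in the closure of the polynomials -/
def Gd (Q : Set ℂ) [CompactSpace Q] (a : ℝ) : Prop :=
  ∃ g ∈ (polynomialFunctions Q).topologicalClosure, ∀ w : Q, ((a : ℂ) - w) * g w = 1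

theorem gd_far {Q : Set ℂ} [CompactSpace Q] (hQ : Q ⊆ closedBall 0 1) {a : ℝ} (ha : 2 ≤ a) :
    Gd Q a := by
  have ha0 : (a : ℂ) ≠ 0 := by
    have : a ≠ 0 := by linarith
    exact_mod_cast this
  let X : C(Q, ℂ) := Polynomial.toContinuousMapOn (Polynomial.X) Q
  have hX : ∀ w : Q, X w = w := by
    intro w
    show Polynomial.eval (w : ℂ) Polynomial.X = w
    simp
  have hXm : X ∈ (polynomialFunctions Q).topologicalClosure := by
    apply Subalgebra.le_topologicalClosure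
    exact ⟨Polynomial.X, trivial, rfl⟩
  have hm : ((a : ℂ)⁻¹) • X ∈ (polynomialFunctions Q).topologicalClosure :=
    Subalgebra.smul_mem _ hXm _
  have hn : ‖((a : ℂ)⁻¹) • X‖ < 1 := by
    have h1 : ‖((a : ℂ)⁻¹) • X‖ ≤ 1 / 2 := by
      rw [ContinuousMap.norm_le _ (by norm_num)]
      intro w
      show ‖((a : ℂ)⁻¹) * X w‖ ≤ 1 / 2
      rw [hX, norm_mul, norm_inv, Complex.norm_real, Real.norm_eq_abs, abs_of_nonneg (by linarith)]
      have h2 : ‖(w : ℂ)‖ ≤ 1 := mem_closedBall_zero_iff.1 (hQ w.2)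
      have h3 : a⁻¹ ≤ 1 / 2 := by
        rw [one_div]
        exact inv_anti₀ (by norm_num) ha
      have h4 : 0 ≤ a⁻¹ := inv_nonneg.2 (by linarith)
      nlinarith [norm_nonneg (w : ℂ)]
    linarith
  obtain ⟨g, hg, hg1⟩ := geo hm hn
  refine ⟨((a : ℂ)⁻¹) • g, Subalgebra.smul_mem _ hg _, fun w => ?_⟩
  have h5 := hg1 w
  have h6 : (((a : ℂ)⁻¹) • X) w = (a : ℂ)⁻¹ * w := by
    show (a : ℂ)⁻¹ * X w = _
    rw [hX]
  rw [h6] at h5
  show ((a : ℂ) - w) * ((a : ℂ)⁻¹ * g w) = 1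
  rw [← h5]
  field_simp

theorem gd_step {Q : Set ℂ} [CompactSpace Q] {a b ρ : ℝ} (hρ : 0 < ρ)
    (hQ : ∀ w ∈ Q, ρ ≤ ‖(a : ℂ) - w‖) (ha : Gd Q a) (hb : |a - b| < ρ) : Gd Q b := by
  obtain ⟨g, hg, hg1⟩ := ha
  have hne : ∀ w : Q, (a : ℂ) - w ≠ 0 := by
    intro w h
    have := hQ w w.2
    rw [h, norm_zero] at this
    linarith
  have hgv : ∀ w : Q, g w = ((a : ℂ) - w)⁻¹ := fun w => eq_inv_of_mul_eq_one_right (hg1 w)
  have hm : ((a - b : ℝ) : ℂ) • g ∈ (polynomialFunctions Q).topologicalClosure :=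
    Subalgebra.smul_mem _ hg _
  have hn : ‖((a - b : ℝ) : ℂ) • g‖ < 1 := by
    have h1 : ‖((a - b : ℝ) : ℂ) • g‖ ≤ |a - b| / ρ := by
      rw [ContinuousMap.norm_le _ (by positivity)]
      intro w
      show ‖((a - b : ℝ) : ℂ) * g w‖ ≤ |a - b| / ρ
      rw [hgv, norm_mul, norm_inv, Complex.norm_real, Real.norm_eq_abs, div_eq_mul_inv]
      exact mul_le_mul_of_nonneg_left (inv_anti₀ hρ (hQ w w.2)) (abs_nonneg _)
    have h2 : |a - b| / ρ < 1 := (div_lt_one hρ).2 hb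
    linarith
  obtain ⟨g', hg', hg1'⟩ := geo hm hn
  refine ⟨g * g', Subalgebra.mul_mem _ hg hg', fun w => ?_⟩
  have h5 := hg1' w
  have h6 : (((a - b : ℝ) : ℂ) • g) w = ((a : ℂ) - b) * g w := by
    show ((a - b : ℝ) : ℂ) * g w = _
    push_cast
    ring
  rw [h6] at h5
  show ((b : ℂ) - w) * (g w * g' w) = 1
  have h7 := hg1 w
  have h8 : ((b : ℂ) - w) * g w = 1 - ((a : ℂ) - b) * g w := by
    linear_combination h7
  rw [← mul_assoc, h8]
  exact h5

theorem QS_dist {δ η a : ℝ} (hδ : 0 < δ) (hη : 0 < η) (ha : η ≤ a) (w : ℂ) (hw : w ∈ QS δ) :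
    min (δ / 2) η ≤ ‖(a : ℂ) - w‖ := by
  obtain ⟨h1, h2⟩ := hw
  have hw1 : ‖w‖ ≤ 1 := mem_closedBall_zero_iff.1 h1
  rcases h2 with h2 | h2
  · have h3 : ∀ t : ℝ, 0 ≤ t → t ≤ 1 → δ ≤ ‖w - t‖ := by
      intro t ht0 ht1
      exact mem_iInter₂.1 h2 t ⟨ht0, ht1⟩
    refine (min_le_left _ _).trans ?_
    rcases le_total a 1 with h | h
    · have := h3 a (by linarith) h
      rw [norm_sub_rev]
      linarith
    · have h4 := h3 1 (by norm_num) le_rfl
      have h5 : a - 1 ≤ ‖(a : ℂ) - w‖ := by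
        have h6 := norm_sub_norm_le (a : ℂ) w
        rw [Complex.norm_real, Real.norm_eq_abs, abs_of_nonneg (by linarith)] at h6
        linarith
      have h7 : ‖w - ((1 : ℝ) : ℂ)‖ ≤ ‖(a : ℂ) - w‖ + (a - 1) := by
        have h8 : w - ((1 : ℝ) : ℂ) = -((a : ℂ) - w) + ((a - 1 : ℝ) : ℂ) := by
          push_cast
          ring
        rw [h8]
        refine (norm_add_le _ _).trans ?_
        rw [norm_neg, Complex.norm_real, Real.norm_eq_abs, abs_of_nonneg (by linarith)]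
      linarith
  · have h3 : w = 0 := h2
    rw [h3, sub_zero, Complex.norm_real, Real.norm_eq_abs, abs_of_nonneg (by linarith)]
    exact (min_le_right _ _).trans ha

theorem gd_all {δ η : ℝ} (hδ : 0 < δ) (hη : 0 < η) : Gd (QS δ) η := by
  set ρ := min (δ / 2) η with hρ
  have hρ0 : 0 < ρ := lt_min (by linarith) hη
  have key : ∀ (k : ℕ) (a : ℝ), η ≤ a → 2 - k * (ρ / 2) ≤ a → Gd (QS δ) a := by
    intro k
    induction k with
    | zero =>
      intro a _ h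
      exact gd_far (Q := QS δ) inter_subset_left (by simpa using h)
    | succ k ih =>
      intro a ha h
      push_cast at h
      have h1 := ih (a + ρ / 2) (by linarith) (by linarith)
      refine gd_step hρ0 (fun w hw => QS_dist hδ hη (by linarith) w hw) h1 ?_
      rw [add_sub_cancel_left, abs_of_pos (by linarith)]
      linarith
  obtain ⟨k, hk⟩ := exists_nat_gt (2 / (ρ / 2))
  refine key k η le_rfl ?_
  rw [div_lt_iff₀ (by linarith)] at hk
  linarith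

theorem ru : T_RU := by
  intro δ ε hδ hε
  set η := min 1 (ε * δ / 4) with hη
  have hη0 : 0 < η := lt_min one_pos (by positivity)
  have hη1 : η ≤ 1 := min_le_left _ _
  have hη2 : η ≤ ε * δ / 4 := min_le_right _ _
  obtain ⟨g, hg, hg1⟩ := gd_all hδ hη0
  have hr : ((η : ℂ)) • g ∈ (polynomialFunctions (QS δ)).topologicalClosure :=
    Subalgebra.smul_mem _ hg _
  have hr' : ((η : ℂ)) • g ∈ closure (polynomialFunctions (QS δ) : Set C(QS δ, ℂ)) := hr
  rw [Metric.mem_closure_iff] at hr'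
  obtain ⟨q, ⟨p, -, rfl⟩, hp⟩ := hr' (ε / 4) (by positivity)
  have hclose : ∀ w : QS δ, ‖(η : ℂ) * g w - p.eval (w : ℂ)‖ ≤ ε / 4 := by
    intro w
    rw [dist_eq_norm] at hp
    exact (ContinuousMap.norm_coe_le_norm (((η : ℂ)) • g - Polynomial.toContinuousMapOn p (QS δ))
      w).trans hp.le
  have h0 : (0 : ℂ) ∈ QS δ := ⟨by simp, Or.inr rfl⟩
  have hr0 : (η : ℂ) * g ⟨0, h0⟩ = 1 := by
    have := hg1 ⟨0, h0⟩
    rw [sub_zero] at this
    exact this
  have hp0 : ‖1 - p.eval 0‖ ≤ ε / 4 := by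
    have := hclose ⟨0, h0⟩
    rw [hr0] at this
    exact this
  refine ⟨p + Polynomial.C (1 - p.eval 0), by simp, fun w hw1 hw => ?_⟩
  have hwQ : w ∈ QS δ := ⟨mem_closedBall_zero_iff.2 hw1, Or.inl (mem_iInter₂.2 fun t ht =>
    hw t ht.1 ht.2)⟩
  have h2 := hclose ⟨w, hwQ⟩
  have h3 : ‖(η : ℂ) * g ⟨w, hwQ⟩‖ ≤ ε / 4 := by
    have h4 := hg1 ⟨w, hwQ⟩
    have h5 : δ ≤ ‖(η : ℂ) - w‖ := by
      rw [norm_sub_rev]
      exact hw η hη0.le hη1
    have h6 : g ⟨w, hwQ⟩ = ((η : ℂ) - w)⁻¹ := eq_inv_of_mul_eq_one_right h4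
    rw [h6, norm_mul, norm_inv, Complex.norm_real, Real.norm_eq_abs, abs_of_pos hη0]
    calc η * ‖(η : ℂ) - w‖⁻¹ ≤ (ε * δ / 4) * δ⁻¹ := by
          apply mul_le_mul hη2 (inv_anti₀ hδ h5) (by positivity) (by positivity)
      _ = ε / 4 := by field_simp
  rw [Polynomial.eval_add, Polynomial.eval_C]
  have h7 : ‖p.eval w‖ ≤ ε / 4 + ε / 4 := by
    have h8 : p.eval w = (η : ℂ) * g ⟨w, hwQ⟩ - ((η : ℂ) * g ⟨w, hwQ⟩ - p.eval w) := by ring
    rw [h8]
    exact (norm_sub_le _ _).trans (add_le_add h3 h2)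
  refine (norm_add_le _ _).trans ?_
  linarith

end Pool.Agent.H17.PK
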